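import Pool.Agent.Helper36.RN.GoalsH

/-!
# Project RFn, existence part, packet ZT: the torsion stays zero
-/

namespace Pool.Agent.Helper62.RN

open Set Filter Topology Pool.Agent.Helper47.RFn Pool.Agent.Helper36.RN

/-- `f` is a linear combination of the `Y i` with continuous coefficients -/
def LC {n : ℕ} (τ : ℝ) {ι : Type} [Fintype ι] (Y : ι → ℝ → XS n) (f : ℝ → XS n) : Prop :=
  ∃ c : ι → ℝ → XS n, (∀ i, CC τ (c i)) ∧ ∀ t ∈ Icc 0 τ, f t = ∑ i, c i t * Y i t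

section

variable {n : ℕ} {τ : ℝ} {ι : Type} [Fintype ι] {Y : ι → ℝ → XS n}

/-- the closure rules used -/
structure CR (n : ℕ) (τ : ℝ) : Prop where
  const : ∀ f : XS n, CC τ (fun _ => f)
  add : ∀ y z : ℝ → XS n, CC τ y → CC τ z → CC τ (fun t => y t + z t)
  sub : ∀ y z : ℝ → XS n, CC τ y → CC τ z → CC τ (fun t => y t - z t)
  mul : ∀ y z : ℝ → XS n, CC τ y → CC τ z → CC τ (fun t => y t * z t)
  neg : ∀ y : ℝ → XS n, CC τ y → CC τ (fun t => - y t)
  Ee : ∀ (i : Fin (n + 1)) (y : ℝ → XS n), CC τ y → CC τ (fun t => Ee i (y t))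
  sum : ∀ (ι : Type) (s : Finset ι) (y : ι → ℝ → XS n), (∀ i ∈ s, CC τ (y i)) →
    CC τ (fun t => ∑ i ∈ s, y i t)

theorem cr_of (h : R_CDA) (n : ℕ) (τ : ℝ) : CR n τ := by
  obtain ⟨-, -, -, -, -, -, -, -, -, -, -, -, h1, h2, h3, h4, h5, -, -, h6, h7, -⟩ := h n τ
  exact ⟨h1, h2, h3, h4, h5, h6, h7⟩

theorem CR.usum (R : CR n τ) {ι : Type} [Fintype ι] {y : ι → ℝ → XS n} (h : ∀ i, CC τ (y i)) :
    CC τ (fun t => ∑ i, y i t) := R.sum ι _ y fun i _ => h i

theorem LC.of (R : CR n τ) [DecidableEq ι] (i : ι) : LC τ Y (Y i) := by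
  refine ⟨fun j _ => if j = i then 1 else 0, fun j => R.const _, fun t _ => ?_⟩
  simp [ite_mul]

theorem LC.add (R : CR n τ) {f g : ℝ → XS n} (hf : LC τ Y f) (hg : LC τ Y g) :
    LC τ Y (fun t => f t + g t) := by
  obtain ⟨c, hc, h⟩ := hf
  obtain ⟨d, hd, k⟩ := hg
  refine ⟨fun i t => c i t + d i t, fun i => R.add _ _ (hc i) (hd i), fun t ht => ?_⟩
  beta_reduce
  rw [h t ht, k t ht, ← Finset.sum_add_distrib]
  exact Finset.sum_congr rfl fun i _ => by ring

theorem LC.sub (R : CR n τ) {f g : ℝ → XS n} (hf : LC τ Y f) (hg : LC τ Y g) :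
    LC τ Y (fun t => f t - g t) := by
  obtain ⟨c, hc, h⟩ := hf
  obtain ⟨d, hd, k⟩ := hg
  refine ⟨fun i t => c i t - d i t, fun i => R.sub _ _ (hc i) (hd i), fun t ht => ?_⟩
  beta_reduce
  rw [h t ht, k t ht, ← Finset.sum_sub_distrib]
  exact Finset.sum_congr rfl fun i _ => by ring

theorem LC.mul (R : CR n τ) {a f : ℝ → XS n} (ha : CC τ a) (hf : LC τ Y f) :
    LC τ Y (fun t => a t * f t) := by
  obtain ⟨c, hc, h⟩ := hf
  refine ⟨fun i t => a t * c i t, fun i => R.mul _ _ ha (hc i), fun t ht => ?_⟩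
  beta_reduce
  rw [h t ht, Finset.mul_sum]
  exact Finset.sum_congr rfl fun i _ => by ring

theorem LC.mul' (R : CR n τ) {a f : ℝ → XS n} (ha : CC τ a) (hf : LC τ Y f) :
    LC τ Y (fun t => f t * a t) := by
  have h := hf.mul R ha
  exact (funext fun t => mul_comm (a t) (f t)) ▸ h

theorem LC.zero (R : CR n τ) : LC τ Y (fun _ => 0) :=
  ⟨fun _ _ => 0, fun _ => R.const _, fun t _ => by simp⟩

theorem LC.sum (R : CR n τ) {κ : Type} (s : Finset κ) {f : κ → ℝ → XS n}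
    (hf : ∀ k ∈ s, LC τ Y (f k)) : LC τ Y (fun t => ∑ k ∈ s, f k t) := by
  classical
  induction s using Finset.induction_on with
  | empty => simpa using LC.zero R
  | insert a s ha ih =>
    have h1 := (hf a (Finset.mem_insert_self _ _)).add R
      (ih fun k hk => hf k (Finset.mem_insert_of_mem hk))
    simpa only [Finset.sum_insert ha] using h1

theorem LC.usum (R : CR n τ) {κ : Type} [Fintype κ] {f : κ → ℝ → XS n}
    (hf : ∀ k, LC τ Y (f k)) : LC τ Y (fun t => ∑ k, f k t) := LC.sum R _ fun k _ => hf k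

theorem LC.congr {f g : ℝ → XS n} (hf : LC τ Y f) (h : ∀ t ∈ Icc 0 τ, g t = f t) : LC τ Y g := by
  obtain ⟨c, hc, k⟩ := hf
  exact ⟨c, hc, fun t ht => (h t ht).trans (k t ht)⟩

end

/-! ## Continuity of the geometric expressions -/

section

variable {n : ℕ} {τ : ℝ} (R : CR n τ) {A θ : ℝ → Ix n → Ix n → XS n}
  {w : ℝ → Ix n → Ix n → Ix n → XS n}
  (hA : ∀ a i, CC τ (fun t => A t a i)) (hθ : ∀ i a, CC τ (fun t => θ t i a))
  (hw : ∀ i c d, CC τ (fun t => w t i c d))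

include R hA hw in
theorem cc_Ga (a c d : Ix n) : CC τ (fun t => TC.Ga (A t) (w t) a c d) :=
  R.usum fun i => R.mul _ _ (hA a i) (hw i c d)

include R hw in
theorem cc_F (i j c d : Ix n) : CC τ (fun t => TC.F (Ee (n := n)) nu (w t) i j c d) := by
  unfold TC.F
  refine R.sub _ _ (R.add _ _ (R.sub _ _ (R.Ee _ _ (hw _ _ _)) (R.Ee _ _ (hw _ _ _)))
    (R.usum fun f => R.sub _ _ (R.mul _ _ (hw _ _ _) (hw _ _ _)) (R.mul _ _ (hw _ _ _) (hw _ _ _))))
    (R.sub _ _ (R.mul _ _ (R.const _) (hw _ _ _)) (R.mul _ _ (R.const _) (hw _ _ _)))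

include R hA hw in
theorem cc_K (a b c d : Ix n) : CC τ (fun t => TC.K (Ee (n := n)) nu (A t) (w t) a b c d) :=
  R.usum fun i => R.usum fun j => R.mul _ _ (R.mul _ _ (hA a i) (hA b j)) (cc_F R hw i j c d)

include R hA hw in
theorem cc_Sr (a c : Ix n) : CC τ (fun t => TC.Sr (Ee (n := n)) nu (A t) (w t) a c) :=
  R.usum fun b => cc_K R hA hw _ _ _ _

include R hA in
theorem cc_al (k l : Ix n) : CC τ (fun t => TC.al (A t) k l) :=
  R.usum fun a => R.mul _ _ (hA _ _) (hA _ _)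

include R hA hw in
theorem cc_ze (c d : Ix n) : CC τ (fun t => TC.ze (Ee (n := n)) (A t) (w t) c d) :=
  R.usum fun k => R.usum fun l => R.mul _ _ (cc_al R hA k l) (R.Ee _ _ (hw _ _ _))

include R hA hw in
theorem cc_Mm (a b : Ix n) : CC τ (fun t => TC.Mm (Ee (n := n)) nu (A t) (w t) a b) :=
  R.add _ _ (cc_Sr R hA hw a b) (cc_ze R hA hw a b)

include R hA hw in
theorem cc_X4 (p a b c : Ix n) : CC τ (fun t => TC.X4 (Ee (n := n)) nu (A t) (w t) p a b c) :=
  R.add _ _ (R.add _ _ (cc_K R hA hw _ _ _ _) (cc_K R hA hw _ _ _ _)) (cc_K R hA hw _ _ _ _)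

end

theorem dta_alg {n : ℕ} {𝒜 : Type} [CommRing 𝒜] (A M T D : Ix n → Ix n → 𝒜) (a b : Ix n) :
    ∑ i, ∑ j, (((∑ d, M a d * A d i) * A b j + A a i * ∑ d, M b d * A d j) * T i j
      + A a i * A b j * D i j) =
    ∑ i, ∑ j, A a i * A b j * D i j + ∑ d, (M a d * (∑ i, ∑ j, A d i * A b j * T i j)
      + M b d * (∑ i, ∑ j, A a i * A d j * T i j)) := by
  have h1 : ∑ d, M a d * (∑ i, ∑ j, A d i * A b j * T i j) =
      ∑ i, ∑ j, (∑ d, M a d * A d i) * A b j * T i j := by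
    simp only [Finset.mul_sum, Finset.sum_mul]
    rw [Finset.sum_comm]
    refine Finset.sum_congr rfl fun i _ => ?_
    rw [Finset.sum_comm]
    exact Finset.sum_congr rfl fun j _ => Finset.sum_congr rfl fun d _ => by ring
  have h2 : ∑ d, M b d * (∑ i, ∑ j, A a i * A d j * T i j) =
      ∑ i, ∑ j, (A a i * ∑ d, M b d * A d j) * T i j := by
    simp only [Finset.mul_sum, Finset.sum_mul]
    rw [Finset.sum_comm]
    refine Finset.sum_congr rfl fun i _ => ?_
    rw [Finset.sum_comm]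
    exact Finset.sum_congr rfl fun j _ => Finset.sum_congr rfl fun d _ => by ring
  rw [Finset.sum_add_distrib, h1, h2, ← Finset.sum_add_distrib, ← Finset.sum_add_distrib]
  refine Finset.sum_congr rfl fun i _ => ?_
  rw [← Finset.sum_add_distrib, ← Finset.sum_add_distrib]
  exact Finset.sum_congr rfl fun j _ => by ring

/-- the derivative of the torsion -/
theorem dta (hS : R_SYS) (hC : R_CDA) {n : ℕ} {τ : ℝ} {A θ O : ℝ → Ix n → Ix n → XS n}
    {w : ℝ → Ix n → Ix n → Ix n → XS n} (h : FS τ A θ O w) (hi : INV τ A θ O w) (a b c : Ix n) :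
    CD τ (fun t => TC.ta (Ee (n := n)) nu (A t) (θ t) (w t) a b c)
      (fun t => ∑ i, ∑ j, A t a i * A t b j * TC.dT (Ee (n := n)) nu (A t) (θ t) (w t) i j c
        + ∑ d, (TC.Mm (Ee (n := n)) nu (A t) (w t) a d * TC.ta (Ee (n := n)) nu (A t) (θ t) (w t) d b c
          + TC.Mm (Ee (n := n)) nu (A t) (w t) b d * TC.ta (Ee (n := n)) nu (A t) (θ t) (w t) a d c)) := by
  obtain ⟨dconst, dadd, dsub, dmul, dneg, dsmul, dLd, dEe, dsum, dcr, dcl, -⟩ := hC n τ
  have hT : ∀ i j, CD τ (fun t => TC.T (Ee (n := n)) nu (θ t) (w t) i j c)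
      (fun t => TC.dT (Ee (n := n)) nu (A t) (θ t) (w t) i j c) := by
    intro i j
    refine dcr _ _ _ (dsub _ _ _ _ (dadd _ _ _ _ (dsub _ _ _ _ (dEe i _ _ (h.dt j c))
      (dEe j _ _ (h.dt i c))) (dsum _ Finset.univ _ _ fun f _ => dsub _ _ _ _
        (dmul _ _ _ _ (h.dt j f) (h.dw i f c)) (dmul _ _ _ _ (h.dt i f) (h.dw j f c))))
      (dsub _ _ _ _ (dmul _ _ _ _ (dconst (nu i)) (h.dt j c))
        (dmul _ _ _ _ (dconst (nu j)) (h.dt i c)))) ?_
    intro t ht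
    have hs := hS n (XS n) Ee nu (A t) (θ t) (w t) (bh_XS n) (hi.ch t ht)
    simp only [hs, TC.dT, zero_mul, zero_add]
    congr 2
    exact Finset.sum_congr rfl fun f _ => by ring
  refine dcr _ _ _ (dsum _ Finset.univ _ _ fun i _ => dsum _ Finset.univ _ _ fun j _ =>
    dmul _ _ _ _ (dmul _ _ _ _ (h.dA a i) (h.dA b j)) (hT i j)) ?_
  intro t _
  exact dta_alg (A t) (fun a b => TC.Mm (Ee (n := n)) nu (A t) (w t) a b)
    (fun i j => TC.T (Ee (n := n)) nu (θ t) (w t) i j c) (fun i j => TC.dT (Ee (n := n)) nu (A t) (θ t) (w t) i j c) a b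

/-- sum with a Kronecker symbol, first form -/
theorem sum_d1 {n : ℕ} {α ε : Type} [Fintype α] [Fintype ε] [DecidableEq α] (φ : ε → α)
    (G : α → ε → XS n) : ∑ j, ∑ e, (if j = φ e then (1 : ℝ) else 0) • G j e = ∑ e, G (φ e) e := by
  rw [Finset.sum_comm]
  refine Finset.sum_congr rfl fun e _ => ?_
  simp only [ite_smul, one_smul, zero_smul, Finset.sum_ite_eq', Finset.mem_univ, if_true]

/-- sum with a Kronecker symbol, second form -/
theorem sum_d2 {n : ℕ} {α ε : Type} [Fintype α] [Fintype ε] (P : α → ε → Prop)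
    [∀ i e, Decidable (P i e)] (i0 : α) (e0 : ε) (h : ∀ i e, P i e ↔ i = i0 ∧ e = e0)
    (G : α → ε → XS n) : ∑ i, ∑ e, (if P i e then (1 : ℝ) else 0) • G i e = G i0 e0 := by
  rw [Finset.sum_eq_single i0, Finset.sum_eq_single e0]
  · rw [if_pos ((h i0 e0).2 ⟨rfl, rfl⟩), one_smul]
  · intro e _ he
    rw [if_neg fun hh => he ((h i0 e).1 hh).2, zero_smul]
  · exact fun hh => absurd (Finset.mem_univ _) hh
  · intro i _ hi
    refine Finset.sum_eq_zero fun e _ => ?_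
    rw [if_neg fun hh => hi ((h i e).1 hh).1, zero_smul]
  · exact fun hh => absurd (Finset.mem_univ _) hh

/-- indices of the torsion -/
abbrev I3 (n : ℕ) : Type := Ix n × Ix n × Ix n

/-- indices of `X4` -/
abbrev I4 (n : ℕ) : Type := Ix n × Ix n × Ix n × Ix n

/-- the coefficients -/
noncomputable def kk {n : ℕ} (j : I4 n) (e : Ix n) (i : I3 n) : ℝ :=
  (if j = (e, i.1, i.2.1, i.2.2) then 1 else 0) + (if j = (i.2.1, e, i.1, i.2.2) then 1 else 0)
    + (if j = (i.1, i.2.1, e, i.2.2) then 1 else 0)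

theorem kk_sum1 {n : ℕ} (a b c : Ix n) (G : I4 n → Ix n → XS n) :
    ∑ j, ∑ e, kk j e (a, b, c) • G j e =
      ∑ e, (G (e, a, b, c) e + G (b, e, a, c) e + G (a, b, e, c) e) := by
  simp only [kk, add_smul, Finset.sum_add_distrib]
  rw [sum_d1 (fun e : Ix n => (e, a, b, c)), sum_d1 (fun e : Ix n => (b, e, a, c)),
    sum_d1 (fun e : Ix n => (a, b, e, c))]

theorem kk_sum2 {n : ℕ} (p q r c : Ix n) (G : I3 n → Ix n → XS n) :
    ∑ i, ∑ e, kk (p, q, r, c) e i • G i e =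
      G (q, r, c) p + G (r, p, c) q + G (p, q, c) r := by
  simp only [kk, add_smul, Finset.sum_add_distrib]
  rw [sum_d2 (fun (i : I3 n) (e : Ix n) => (p, q, r, c) = (e, i.1, i.2.1, i.2.2)) (q, r, c) p,
    sum_d2 (fun (i : I3 n) (e : Ix n) => (p, q, r, c) = (i.2.1, e, i.1, i.2.2)) (r, p, c) q,
    sum_d2 (fun (i : I3 n) (e : Ix n) => (p, q, r, c) = (i.1, i.2.1, e, i.2.2)) (p, q, c) r]
  all_goals
    rintro ⟨a, b, c'⟩ e
    simp only [Prod.mk.injEq]
    constructor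
    · rintro ⟨rfl, rfl, rfl, rfl⟩
      exact ⟨⟨rfl, rfl, rfl⟩, rfl⟩
    · rintro ⟨⟨rfl, rfl, rfl⟩, rfl⟩
      exact ⟨rfl, rfl, rfl, rfl⟩

theorem zt : G_ZT := by
  intro hAN hB hT hS hC hE n τ A θ O w h hi h0 t ht a b c
  have R := cr_of hC n τ
  obtain ⟨-, -, -, -, -, -, -, -, -, -, -, dcc, -⟩ := hC n τ
  have hA : ∀ a i, CC τ (fun t => A t a i) := fun a i => (dcc _ _ (h.dA a i)).1
  have hθ : ∀ i a, CC τ (fun t => θ t i a) := fun i a => (dcc _ _ (h.dt i a)).1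
  have hw : ∀ i c d, CC τ (fun t => w t i c d) := fun i c d => (dcc _ _ (h.dw i c d)).1
  have hta : ∀ a b c, CC τ (fun t => TC.ta (Ee (n := n)) nu (A t) (θ t) (w t) a b c) :=
    fun a b c => (dcc _ _ (dta hS hC h hi a b c)).1
  have hX := fun p a b c => cc_X4 R hA hw p a b c
  have hG := fun a c d => cc_Ga R hA hw a c d
  have hK := fun a b c d => cc_K R hA hw a b c d
  have hZ := fun c d => cc_ze R hA hw c d
  have hM := fun a b => cc_Mm R hA hw a b
  let X : I4 n → ℝ → XS n := fun j t => TC.X4 (Ee (n := n)) nu (A t) (w t) j.1 j.2.1 j.2.2.1 j.2.2.2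
  let N : I3 n → ℝ → XS n := fun i t => TC.ta (Ee (n := n)) nu (A t) (θ t) (w t) i.1 i.2.1 i.2.2
  let Y : I4 n ⊕ I3 n → ℝ → XS n := Sum.elim X N
  have yX : ∀ p a b c, LC τ Y (fun t => TC.X4 (Ee (n := n)) nu (A t) (w t) p a b c) :=
    fun p a b c => LC.of (Y := Y) R (Sum.inl (p, a, b, c))
  have yN : ∀ a b c, LC τ Y (fun t => TC.ta (Ee (n := n)) nu (A t) (θ t) (w t) a b c) :=
    fun a b c => LC.of (Y := Y) R (Sum.inr (a, b, c))
  have nN : ∀ a b c, LC τ N (fun t => TC.ta (Ee (n := n)) nu (A t) (θ t) (w t) a b c) :=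
    fun a b c => LC.of (Y := N) R (a, b, c)
  -- first equation
  have e1 : ∀ i : I3 n, LC τ Y (fun t =>
      (∑ j, ∑ d, A t i.1 j * A t i.2.1 d * TC.dT (Ee (n := n)) nu (A t) (θ t) (w t) j d i.2.2
        + ∑ d, (TC.Mm (Ee (n := n)) nu (A t) (w t) i.1 d * TC.ta (Ee (n := n)) nu (A t) (θ t) (w t) d i.2.1 i.2.2
          + TC.Mm (Ee (n := n)) nu (A t) (w t) i.2.1 d * TC.ta (Ee (n := n)) nu (A t) (θ t) (w t) i.1 d i.2.2))
      - (1 / 3 : ℝ) • ∑ j, ∑ e, kk j e i • ∑ l, A t e l * Ee l (X j t)) := by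
    rintro ⟨a, b, c⟩
    have L1 : LC τ Y (fun t => (0 - ∑ p, ∑ f, (TC.Ga (A t) (w t) p p f * TC.X4 (Ee (n := n)) nu (A t) (w t) f a b c
        + TC.Ga (A t) (w t) p a f * TC.X4 (Ee (n := n)) nu (A t) (w t) p f b c
        + TC.Ga (A t) (w t) p b f * TC.X4 (Ee (n := n)) nu (A t) (w t) p a f c
        + TC.Ga (A t) (w t) p c f * TC.X4 (Ee (n := n)) nu (A t) (w t) p a b f))
        - ∑ q, TC.ta (Ee (n := n)) nu (A t) (θ t) (w t) a b q * TC.ze (Ee (n := n)) (A t) (w t) q c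
        + ∑ p, ∑ f, (TC.ta (Ee (n := n)) nu (A t) (θ t) (w t) p a f * TC.K (Ee (n := n)) nu (A t) (w t) f b p c
          + TC.ta (Ee (n := n)) nu (A t) (θ t) (w t) b p f * TC.K (Ee (n := n)) nu (A t) (w t) f a p c)
        + ∑ d, (TC.Mm (Ee (n := n)) nu (A t) (w t) a d * TC.ta (Ee (n := n)) nu (A t) (θ t) (w t) d b c
          + TC.Mm (Ee (n := n)) nu (A t) (w t) b d * TC.ta (Ee (n := n)) nu (A t) (θ t) (w t) a d c)) := by
      refine ((((LC.zero R).sub R (LC.usum R fun p => LC.usum R fun f => ?_)).sub R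
        (LC.usum R fun q => (yN a b q).mul' R (hZ q c))).add R
        (LC.usum R fun p => LC.usum R fun f => ?_)).add R (LC.usum R fun d => ?_)
      · exact (((yX f a b c).mul R (hG p p f)).add R ((yX p f b c).mul R (hG p a f))).add R
          ((yX p a f c).mul R (hG p b f)) |>.add R ((yX p a b f).mul R (hG p c f))
      · exact ((yN p a f).mul' R (hK f b p c)).add R ((yN b p f).mul' R (hK f a p c))
      · exact ((yN d b c).mul R (hM a d)).add R ((yN a d c).mul R (hM b d))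
    refine L1.congr fun t ht => ?_
    have hTE := hT n (XS n) Ee nu (A t) (θ t) (w t) (bh_XS n) (hi.ch t ht) a b c
    have hcy : ∀ p a b c, TC.X4 (Ee (n := n)) nu (A t) (w t) p a b c = TC.X4 (Ee (n := n)) nu (A t) (w t) a b p c :=
      (hAN n (XS n) Ee nu (A t) (θ t) (w t) (hi.ch t ht).anti).2.2.2.2.2.2.2.2.2.2.2
    have k1 := kk_sum1 a b c (fun j e => ∑ l, A t e l * Ee l (X j t))
    have k2 : (1 / 3 : ℝ) • ∑ j, ∑ e, kk j e (a, b, c) • ∑ l, A t e l * Ee l (X j t) =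
        ∑ e, ∑ l, A t e l * Ee l (TC.X4 (Ee (n := n)) nu (A t) (w t) e a b c) := by
      rw [k1, Finset.smul_sum]
      refine Finset.sum_congr rfl fun e _ => ?_
      have r1 : X (b, e, a, c) t = TC.X4 (Ee (n := n)) nu (A t) (w t) e a b c := hcy b e a c
      have r2 : X (a, b, e, c) t = TC.X4 (Ee (n := n)) nu (A t) (w t) e a b c := (hcy e a b c).symm
      have r0 : X (e, a, b, c) t = TC.X4 (Ee (n := n)) nu (A t) (w t) e a b c := rfl
      simp only [r0, r1, r2]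
      module
    simp only [k2, hTE, TC.cd4, FR.Fd, Finset.sum_sub_distrib]
    ring
  have e2 : ∀ j : I4 n, LC τ N (fun t =>
      X j t - ∑ i, ∑ e, kk j e i • ∑ l, A t e l * Ee l (N i t)) := by
    rintro ⟨p, a, b, c⟩
    have L2 : LC τ N (fun t =>
        (0 - ∑ f, (TC.Ga (A t) (w t) p a f * TC.ta (Ee (n := n)) nu (A t) (θ t) (w t) f b c
          + TC.Ga (A t) (w t) p b f * TC.ta (Ee (n := n)) nu (A t) (θ t) (w t) a f c
          + TC.Ga (A t) (w t) p c f * TC.ta (Ee (n := n)) nu (A t) (θ t) (w t) a b f))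
        - ∑ f, (TC.Ga (A t) (w t) a b f * TC.ta (Ee (n := n)) nu (A t) (θ t) (w t) f p c
          + TC.Ga (A t) (w t) a p f * TC.ta (Ee (n := n)) nu (A t) (θ t) (w t) b f c
          + TC.Ga (A t) (w t) a c f * TC.ta (Ee (n := n)) nu (A t) (θ t) (w t) b p f)
        - ∑ f, (TC.Ga (A t) (w t) b p f * TC.ta (Ee (n := n)) nu (A t) (θ t) (w t) f a c
          + TC.Ga (A t) (w t) b a f * TC.ta (Ee (n := n)) nu (A t) (θ t) (w t) p f c
          + TC.Ga (A t) (w t) b c f * TC.ta (Ee (n := n)) nu (A t) (θ t) (w t) p a f)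
        + ∑ f, (TC.ta (Ee (n := n)) nu (A t) (θ t) (w t) p a f * TC.ta (Ee (n := n)) nu (A t) (θ t) (w t) f b c
          + TC.ta (Ee (n := n)) nu (A t) (θ t) (w t) a b f * TC.ta (Ee (n := n)) nu (A t) (θ t) (w t) f p c
          + TC.ta (Ee (n := n)) nu (A t) (θ t) (w t) b p f * TC.ta (Ee (n := n)) nu (A t) (θ t) (w t) f a c)) := by
      have g3 : ∀ p a b c, LC τ N (fun t => ∑ f,
          (TC.Ga (A t) (w t) p a f * TC.ta (Ee (n := n)) nu (A t) (θ t) (w t) f b c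
          + TC.Ga (A t) (w t) p b f * TC.ta (Ee (n := n)) nu (A t) (θ t) (w t) a f c
          + TC.Ga (A t) (w t) p c f * TC.ta (Ee (n := n)) nu (A t) (θ t) (w t) a b f)) := fun p a b c =>
        LC.usum R fun f => (((nN f b c).mul R (hG p a f)).add R ((nN a f c).mul R (hG p b f))).add R
          ((nN a b f).mul R (hG p c f))
      refine ((((LC.zero R).sub R (g3 p a b c)).sub R (g3 a b p c)).sub R (g3 b p a c)).add R
        (LC.usum R fun f => (((nN f b c).mul R (hta p a f)).add R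
          ((nN f p c).mul R (hta a b f))).add R ((nN f a c).mul R (hta b p f)))
    refine L2.congr fun t ht => ?_
    have hb := (hB n (XS n) Ee nu (A t) (θ t) (w t) (bh_XS n) (hi.ch t ht)).1 p a b c
    have k1 := kk_sum2 p a b c (fun i e => ∑ l, A t e l * Ee l (N i t))
    have k2 : ∑ i, ∑ e, kk (p, a, b, c) e i • ∑ l, A t e l * Ee l (N i t) =
        FR.Fd Ee (A t) p (TC.ta (Ee (n := n)) nu (A t) (θ t) (w t) a b c)
        + FR.Fd Ee (A t) a (TC.ta (Ee (n := n)) nu (A t) (θ t) (w t) b p c)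
        + FR.Fd Ee (A t) b (TC.ta (Ee (n := n)) nu (A t) (θ t) (w t) p a c) := k1
    have x0 : X (p, a, b, c) t = TC.X4 (Ee (n := n)) nu (A t) (w t) p a b c := rfl
    rw [k2, x0, hb]
    simp only [TC.cd3]
    ring
  choose f1 hf1 hf1' using e1
  choose f2 hf2 hf2' using e2
  refine hE n (I3 n) (I4 n) τ (1 / 3) kk N _ X (fun a l t => A t a l)
    (fun i j => f1 i (Sum.inl j)) (fun i j => f1 i (Sum.inr j)) f2 (by norm_num)
    (fun i => dta hS hC h hi i.1 i.2.1 i.2.2) (fun j => hX _ _ _ _) (fun a l => hA a l)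
    (fun i j => hf1 i _) (fun i j => hf1 i _) hf2 ?_ ?_ (fun i => h0 _ _ _) t ht (a, b, c)
  · intro t ht i
    have q := hf1' i t ht
    rw [Fintype.sum_sum_type] at q
    have q2 := sub_eq_iff_eq_add'.1 q
    rw [q2, add_assoc]
    rfl
  · intro t ht j
    exact sub_eq_iff_eq_add'.1 (hf2' j t ht)

end Pool.Agent.Helper62.RN
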